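import Pool.Agent.Lib.MP_7df46e_an.Category

/-!
# Q1 of MP_7df46e_an: the set of points with dense orbit under the erasing map is comeagre
-/

open Pool.Agent.Lib.MP_7df46e_an

/-- There is exactly one erasing map `R`, and the set `E` of the points of the unit interval
whose forward orbit under `R` is dense is not meagre and has meagre complement. -/
theorem Pool.Agent.Results.MP_7df46e_an.ErasingComeagre.result :
    (∃! R : unitInterval → unitInterval, IsErasingMap R) ∧
      ∀ R : unitInterval → unitInterval, IsErasingMap R →
        ¬ IsMeagre (DenseOrbitSet R) ∧ IsMeagre (DenseOrbitSet R)ᶜ := by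
  refine ⟨existsUnique_erasingMap, fun R hR => ⟨dense_orbit_not_isMeagre R hR, ?_⟩⟩
  unfold IsMeagre
  rw [compl_compl]
  exact dense_orbit_residual R hR
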