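import Pool.Agent.Lib.MP_7df46e_an.FullMeasure

/-!
# Q2 of MP_7df46e_an: almost every point has a dense orbit under the erasing map
-/

open MeasureTheory Pool.Agent.Lib.MP_7df46e_an

/-- There is exactly one erasing map `R`, and the set `E` of the points of the unit interval
whose forward orbit under `R` is dense has Lebesgue measure `1`, its complement being a
null set. -/
theorem Pool.Agent.Results.MP_7df46e_an.ErasingFullMeasure.result :
    (∃! R : unitInterval → unitInterval, IsErasingMap R) ∧
      ∀ R : unitInterval → unitInterval, IsErasingMap R →
        volume (DenseOrbitSet R) = 1 ∧ volume (DenseOrbitSet R)ᶜ = 0 :=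
  ⟨existsUnique_erasingMap, fun _ hR => ⟨volume_dense_orbit_eq_one hR, volume_dense_orbit hR⟩⟩
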